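import Pool.Agent.Helper94.ETC.CS.Main

/-! # MP_d26ff6_al: quaternions with a common slot

A finite quaternionic structure `(G, -1, q)` with an element `e` such that every quaternion has the
slot `e` (every `q(a,b)` is some `q(e,c)`) is of elementary type.  For a field this says that all
quaternion algebras are split by one and the same extension `F(√e)`.

Outline.  The common slot makes the quaternions additive, so linkage can be stated for the space `A`
of all bilinear forms `ω` on `G` vanishing where `q` does: if `ω(a) = η(c)` then some `ζ` in `A` has
`ζ(a) = ζ(c) = ω(a)`.  The forms are determined by `ω(e)`.  Let `R_ω` be the radical of `ω` and write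
`κ ≤ ω` if `R_ω ⊆ R_κ`.  (1) If `ω(a) = η(c) = h`, then there is `κ ≤ ω` with `κ(c) = h`, or
`κ ≤ ω` with `κ(c) = 0` and `κ(a,e) = 1` (`CS.key`, by linkage for `(aρ, c)` for suitable `ρ ∈ R_ω`).
(2) If `μ ≤ λ` then `G = R_μ R_{λ+μ}` (`CS.stepA`); so every form is a sum of minimal ones with
independent ranges, and the forms `≤ λ` are the partial sums.  (3) Two different minimal forms have
disjoint ranges, or the ranges share one nonzero element and the sum of the forms is minimal again;
this is an equivalence relation, and minimal forms with pairwise disjoint ranges have independent
ranges (`CS.claimJ`).  (4) Hence for every subgroup `U` the forms killing `U` are linked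
(`CS.hered`), and the library's criterion for additive quaternions applies. -/

set_option autoImplicit false

namespace Pool.Agent.Results.MP_d26ff6_al.CommonSlot

open Pool.Agent.H315R3.ETC

/-- **Theorem.** If in a finite quaternionic structure all quaternions have a common slot, the
structure is of elementary type. -/
theorem result (S : QData) (hS : IsQuat S) (hfin : Finite S.G)
    (hslot : ∃ e : S.G, ∀ a b : S.G, ∃ c : S.G, S.q a b = S.q e c) : Elem S := by
  obtain ⟨e, he⟩ := hslot
  exact Pool.Agent.Helper94.Slot.elem_of_common S hS hfin he

end Pool.Agent.Results.MP_d26ff6_al.CommonSlot
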