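import Pool.Agent.Helper94.ETC.Quo

/-! # MP_d26ff6_al: elementary type and linkage in quotients

For a quaternionic structure `S` and `u` in its group let `S/u` be the quotient by the quaternions
`q(u, ·)`: `q(a,b)` and `q(c,d)` become equal if for some `x` the three quaternions `q(a,bx)`,
`q(c,dx)`, `q(ac,x)` are of the form `q(u, ·)`.  A finite quaternionic structure is of elementary
type if and only if all its iterated quotients are quaternionic structures.  So the elementary type
conjecture says that the class of finite quaternionic structures is closed under quotients.

Outline.  Elementary type is inherited by quotients (library).  Conversely, let all `S/u` be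
quaternionic and (by induction) of elementary type.  In structures of elementary type every function
on the pairs `(a,b)` with `q(a,b) = 0` which is additive in both variables, symmetric and zero at the
pairs `(a,-a)` extends to a bilinear form.  Hence homomorphisms `Q_u → Z/2` extend to symbols of `S`,
so symbols separate the elements of `Q_u`.  If all symbols agree at `q(a,b)` and `q(c,d)`, these are
linked modulo `Q_u`, with `q(a,bx) + q(c,dx) + q(ac,x) = 0` in `Q_u`; then the lemma on triples
gives `q(a,b) = q(c,d)`.  So the quaternions of `S` are additive.  The structures `S_U` of the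
library are quaternionic, as they are the `(S/u)_U`, and the library's linkage criterion for
additive quaternions applies. -/

set_option autoImplicit false

namespace Pool.Agent.Results.MP_d26ff6_al.QuotientLinkage

open Pool.Agent.H315R3.ETC Pool.Agent.Helper94.ETC

/-- A finite quaternionic structure is of elementary type if and only if all its iterated quotients
are quaternionic structures; it has then additive quaternions, and its additivity already follows if
one quotient `S/u` is a quaternionic structure of elementary type.  The elementary type conjecture
holds if and only if every quotient `S/u` of every finite quaternionic structure is a quaternionic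
structure. -/
theorem result :
    (∀ S : QData, IsQuat S → Finite S.G →
      ((Elem S ↔ ∀ T, Iter S T → IsQuat T) ∧
      (Elem S ↔ ∀ u : S.G, (∃ y, S.q u y ≠ S.zero) → IsQuat (quo S u) ∧ Elem (quo S u)) ∧
      ((∃ u : S.G, IsQuat (quo S u) ∧ Elem (quo S u)) → Pool.Agent.HP953.EH.AddQuat S))) ∧
    ((∀ S : QData, IsQuat S → Finite S.G → Elem S) ↔
      ∀ S : QData, IsQuat S → Finite S.G → ∀ u : S.G, IsQuat (quo S u)) := by
  have h1 : ∀ S : QData, IsQuat S → Finite S.G → (Elem S ↔ ∀ T, Iter S T → IsQuat T) :=
    fun S hS hf => ⟨fun hE T hT => (iter_of_elem hS hf hE hT).1,
      fun h => elem_of_iter _ S hf h le_rfl⟩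
  refine ⟨fun S hS hf => ⟨h1 S hS hf, ⟨fun hE u _ => quo_of_elem hS hf hE u,
    elem_of_quo hS hf⟩, fun ⟨u, hu1, hu2⟩ => add_of_quo hS u hu1 hu2⟩,
    fun h S hS hf u => (quo_of_elem hS hf (h S hS hf) u).1, fun h S hS hf => ?_⟩
  refine (h1 S hS hf).2 fun T hT => ?_
  have : IsQuat T ∧ Finite T.G := by
    induction hT with
    | refl => exact ⟨hS, hf⟩
    | step T u _ ih => exact ⟨h T ih.1 ih.2 u, ih.2⟩
  exact this.1

end Pool.Agent.Results.MP_d26ff6_al.QuotientLinkage
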