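import Pool.Agent.Helper94.ETC.DN.E10

/-! # MP_d26ff6_al: structures with few value groups of large index

Let `S = (G,-1,q)` be a finite quaternionic structure and `V(a) = {x : q(a,x) = 0}`. If fewer than
five eighths of the elements `a` of `G` have a value group `V(a)` of index greater than four (for
instance, if they lie in a proper subgroup), or fewer than seven thirty-seconds (for instance none)
have one of index greater than eight, or the latter lie in a subgroup of index at least four, then `S`
is of elementary type. It is not assumed that the quaternions can be added.

Outline. A symbol on a subgroup `W` is a homomorphism `h` from `W` to the functionals on `G` such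
that `h(w)` vanishes on `V(w)`; let `N = |G|`.
(1) Let `S` be a counterexample with as few nonradical elements as possible. If some quotient `S/u`,
`u` nonradical (the quaternions with slot `u` are made zero), is a quaternionic structure, it is of
elementary type, since its value groups contain those of `S`; then the quaternions of `S` are additive
by the earlier result on quotients, and the library's theorem for additive quaternions applies. So no
`S/u` is a quaternionic structure, and this gives for every nonradical `u` a symbol `h` on a subgroup
`P` of order eight containing `u` and an element `z` to which `h` does not extend; let `P₄ = ⟨P,z⟩`.
Extend `h` to a maximal subgroup `W`; it has index at least eight, and `[G:V(v)]` is at least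
`16 / |P ∩ V(v)|` for `v` outside `W`.
(2) If the symbols on all subgroups of `P` of order four extend to `P₄`, the differences give seven
functionals indexed by the points of the Fano plane, and at least `5N/8` elements have value groups of
index at least eight, `3N/8` of index at least 16.
(3) Otherwise let `F` be a symbol on a subgroup `L` of `P` of order four which does not extend to
`P₄`. Then `V(a)` has index at least four for all `a ≠ 1` in `P₄`, and `V(a)V(b) ≠ G` for all
distinct `a, b ≠ 1` in `P₄` (else the value at `a` is determined by the one at `ab`, which allows to
extend `F`).
(4) If some `u` has a value group of index at least 16, take this `u` in (1). With (3), a count of the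
elements orthogonal to the points and lines of `P` shows that at most `N/4` elements are orthogonal to
a subgroup of `P` of order four, and at most `11N/16` to a nontrivial element of `P`; together with
`W` this gives the two bounds. If all `v` with an index of at least 16 lie in a subgroup `H` of order
at most `N/4`, then `G` is the union of `W`, the elements orthogonal to a nontrivial element of `P`,
and the other elements of `H`, which is impossible by size.
(5) Let all indices be at most eight. Then more than `7N/8` elements are orthogonal to a nontrivial
element of `P'`, for each `P'` of order eight with `L < P' < P₄`. By counting, all value groups of
nontrivial elements of `P₄` have index four, those of an element of `P' \ L` and another one of `P'`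
are distinct, and any two in `P'` have the same intersection `V₀` of order `N/8`, which does not depend
on `P'`. So every `c` in `P₄ \ L` has the same value group as some `a` in `P' \ L`. Extensions `h₁`,
`h₂` of `F` to two such subgroups define a homomorphism on `P₄`; for `c` outside both take `a` in
`P₁' \ L` with `V(a) = V(c)`; then `V(c) ≤ V(ac)` and `h₁(a) + h₂(ac)` vanishes on `V(c)`. So `F`
extends to `P₄`, a contradiction. -/

set_option autoImplicit false

namespace Pool.Agent.Results.MP_d26ff6_al.SmallIndicesDense

open Pool.Agent.H315R3.ETC Pool.Agent.Helper94.ETC

/-- the value group `V(a) = {x : q(a,x) = 0}` -/
def V (S : QData) (hS : IsQuat S) (a : S.G) : Subgroup S.G where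
  carrier := {x | S.q a x = S.zero}
  one_mem' := (VG hS a).one_mem
  mul_mem' := (VG hS a).mul_mem
  inv_mem' := (VG hS a).inv_mem

/-- A finite quaternionic structure in which fewer than five eighths of all elements `a` have a value
group `V(a)` of index greater than four, or fewer than seven thirty-seconds have one of index greater
than eight, or the latter elements lie in a subgroup of index at least four, is of elementary type. -/
theorem result (S : QData) (hS : IsQuat S) (hfin : Finite S.G)
    (h : 8 * {a : S.G | 4 < (V S hS a).index}.ncard < 5 * Nat.card S.G ∨
      32 * {a : S.G | 8 < (V S hS a).index}.ncard < 7 * Nat.card S.G ∨
      ∃ H : Subgroup S.G, 4 ≤ H.index ∧ ∀ a : S.G, 8 < (V S hS a).index → a ∈ H) : Elem S :=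
  Pool.Agent.Helper94.DN.elem_of_dense4 S hS hfin h

end Pool.Agent.Results.MP_d26ff6_al.SmallIndicesDense
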