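import Pool.Agent.Helper94.ETC.DN.E6
import Pool.Agent.Helper94.ETC.Count
import Pool.Graph.R_pool_sql_team_seeded_63374d34.Results.MP_d26ff6_al.FewQuaternions

/-! # MP_d26ff6_al: structures with at most twenty-seven quaternions

Let `S = (G,-1,q)` be a finite quaternionic structure. If `S` has at most 27 quaternions, then `S` is
of elementary type. It is enough that for all `x, y, z` in `G` at most 27 quaternions have a slot in
the subgroup generated by `x, y, z`, or that the value groups `V(p) = {b : q(p,b) = 0}` have index at
most four for `p = x, y, z, xyz`. It is not assumed that the quaternions can be added.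

Outline. If all value groups have index at most eight, symbols on subgroups of order eight (that is,
homomorphisms `h` to the functionals on `G` such that `h(w)` vanishes on `V(w)`) extend by any element,
so all iterated quotients of `S` are quaternionic structures and `S` is of elementary type; see the
module on value groups of index at most eight for this main step. Otherwise let `V(a)` have the largest
index, at least 16. If the index of `V(b) V(ab)` is at most two for all `b`, there is an additive
function on the quaternions for every functional, so the quaternions can be added, and the library's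
theorem for additive quaternions applies. If it is at least four for some `b`, the union of the sets
`Q_a`, `Q_b`, `Q_(ab)` of quaternions with slot `a`, `b`, `ab` has at least 28 elements, in
contradiction to the hypothesis for `a, b, 1`. -/

set_option autoImplicit false

namespace Pool.Agent.Results.MP_d26ff6_al.TwentySevenQuaternions

open Pool.Agent.H315R3.ETC Pool.Agent.Helper94.ETC

/-- the value group `V(a) = {x : q(a,x) = 0}` -/
def V (S : QData) (hS : IsQuat S) (a : S.G) : Subgroup S.G where
  carrier := {x | S.q a x = S.zero}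
  one_mem' := (VG hS a).one_mem
  mul_mem' := (VG hS a).mul_mem
  inv_mem' := (VG hS a).inv_mem

/-- the quaternions with a slot in the subset `W` of `G` -/
def Quats (S : QData) (W : Set S.G) : Set S.Q := {t | ∃ a ∈ W, ∃ b : S.G, S.q a b = t}

/-- the order of `Q_p` if the quaternions are additive -/
theorem card_QGroup {S : QData} (hS : IsQuat S) (hfin : Finite S.G) {B : Type} [AddCommGroup B]
    (hB : ∀ b : B, b + b = 0) (β : S.G → S.G → B)
    (hmul : ∀ a b c, β a (b * c) = β a b + β a c)
    (hq : ∀ a b c d, β a b = β c d ↔ S.q a b = S.q c d) (p : S.G) :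
    Nat.card (Pool.Agent.Results.MP_d26ff6_al.FewQuaternions.QGroup β p) ≤ (VG hS p).index := by
  let K : AddSubgroup B :=
    { carrier := Set.range (β p)
      zero_mem' := ⟨1, by
        have h := hmul p 1 1
        rw [mul_one] at h
        rw [h]
        exact hB _⟩
      add_mem' := by
        rintro _ _ ⟨x, rfl⟩ ⟨y, rfl⟩
        exact ⟨x * y, hmul p x y⟩
      neg_mem' := by
        rintro _ ⟨x, rfl⟩
        exact ⟨x, (neg_eq_of_add_eq_zero_left (hB _)).symm⟩ }
  have hle : Pool.Agent.Results.MP_d26ff6_al.FewQuaternions.QGroup β p ≤ K :=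
    (AddSubgroup.closure_le K).2 (fun x hx => hx)
  have hK : (K : Set B).Finite := Set.finite_range (β p)
  have h1 : Nat.card (Pool.Agent.Results.MP_d26ff6_al.FewQuaternions.QGroup β p) ≤
      (Set.range (β p)).ncard :=
    Set.ncard_le_ncard (s := ((Pool.Agent.Results.MP_d26ff6_al.FewQuaternions.QGroup β p :
      AddSubgroup B) : Set B)) (t := Set.range (β p)) hle hK
  refine h1.trans ?_
  rw [← ncard_RQ hS p]
  have h2 : ∀ x y, S.q p x = S.q p y → β p x = β p y := fun x y h => (hq p x p y).2 h
  classical
  -- a function from the quaternions with slot `p`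
  let g : S.Q → B := fun t => if h : ∃ x, S.q p x = t then β p h.choose else 0
  have hg : ∀ x, g (S.q p x) = β p x := by
    intro x
    have hx : ∃ y, S.q p y = S.q p x := ⟨x, rfl⟩
    simp only [g, dif_pos hx]
    exact h2 _ _ hx.choose_spec
  have h3 : Set.range (β p) ⊆ g '' RQ S p := by
    rintro _ ⟨x, rfl⟩
    exact ⟨S.q p x, ⟨x, rfl⟩, hg x⟩
  have hfQ : (RQ S p).Finite := Set.finite_range _
  exact (Set.ncard_le_ncard h3 (hfQ.image g)).trans (Set.ncard_image_le hfQ)

theorem main (S : QData) (hS : IsQuat S) (hfin : Finite S.G)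
    (h : ∀ x y z : S.G, (Quats S (Subgroup.closure {x, y, z} : Subgroup S.G)).ncard ≤ 27 ∨
      ((V S hS x).index ≤ 4 ∧ (V S hS y).index ≤ 4 ∧ (V S hS z).index ≤ 4 ∧
        (V S hS (x * y * z)).index ≤ 4)) : Elem S := by
  by_cases h8 : ∀ a : S.G, (VG hS a).index ≤ 8
  · exact Pool.Agent.Helper94.DN.elem_of_i8 S hS hfin h8
  push Not at h8
  obtain ⟨b, hb⟩ := h8
  obtain ⟨a, ha⟩ := Finite.exists_max (fun a : S.G => (VG hS a).index)
  have h8 : 8 < (VG hS a).index := lt_of_lt_of_le hb (ha b)
  have hfQ : ∀ W : Set S.G, (Quats S W).Finite := by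
    intro W
    refine (Set.finite_range (fun p : S.G × S.G => S.q p.1 p.2)).subset ?_
    rintro t ⟨g, -, b, rfl⟩
    exact ⟨(g, b), rfl⟩
  have hA : Pool.Agent.HP953.EH.AddQuat S := by
    by_cases hJ : ∀ b, (VG hS b ⊔ VG hS (a * b)).index ≤ 2
    · exact add_of_index hS a fun b => ⟨hJ b, Subgroup.index_ne_zero_of_finite⟩
    · exfalso
      push Not at hJ
      obtain ⟨b, hb⟩ := hJ
      have h27 : (Quats S (Subgroup.closure {a, b, 1} : Subgroup S.G)).ncard ≤ 27 := by
        rcases h a b 1 with h | ⟨h, -⟩
        · exact h
        · have h1 : (VG hS a).index ≤ 4 := h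
          omega
      have ma : a ∈ (Subgroup.closure {a, b, 1} : Subgroup S.G) :=
        Subgroup.subset_closure (by simp)
      have mb : b ∈ (Subgroup.closure {a, b, 1} : Subgroup S.G) :=
        Subgroup.subset_closure (by simp)
      have hsub : RQ S a ∪ RQ S b ∪ RQ S (a * b) ⊆
          Quats S (Subgroup.closure {a, b, 1} : Subgroup S.G) := by
        rintro t ((⟨y, rfl⟩ | ⟨y, rfl⟩) | ⟨y, rfl⟩)
        · exact ⟨a, ma, y, rfl⟩
        · exact ⟨b, mb, y, rfl⟩
        · exact ⟨a * b, mul_mem ma mb, y, rfl⟩
      have hcard := Set.ncard_le_ncard hsub (hfQ _)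
      have hle : (VG hS a).index ≤ 27 := by
        rw [← ncard_RQ hS]
        refine le_trans (Set.ncard_le_ncard ?_ (hfQ _)) h27
        exact fun t ht => hsub (Or.inl (Or.inl ht))
      obtain ⟨-, k2⟩ := union_large hS ha (by omega) (by omega) hb
      obtain ⟨n, hn⟩ := index_pow hS (VG hS a)
      have h16 : (VG hS a).index = 16 := by
        have h3 : 3 < n := by
          by_contra h
          have : n ≤ 3 := by omega
          have h5 : 2 ^ n ≤ 2 ^ 3 := Nat.pow_le_pow_right (by norm_num) this
          omega
        have h5 : n < 5 := by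
          by_contra h
          have : 5 ≤ n := by omega
          have h5 : 2 ^ 5 ≤ 2 ^ n := Nat.pow_le_pow_right (by norm_num) this
          omega
        have : n = 4 := by omega
        rw [hn, this]
        norm_num
      have := k2 h16
      omega
  obtain ⟨B, hB, β, h1, h2, h3⟩ := hA
  refine (Pool.Agent.Results.MP_d26ff6_al.FewQuaternions.result S hS hfin h1 β h2 h3).2 ?_
  intro x y z
  rcases h x y z with h | ⟨k1, k2, k3, k4⟩
  · left
    exact h
  · right; left
    have key := card_QGroup hS hfin h1 β h2 h3
    rintro p (rfl | rfl | rfl | rfl)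
    · exact (key _).trans k1
    · exact (key _).trans k2
    · exact (key _).trans k3
    · exact (key _).trans k4

/-- A finite quaternionic structure is of elementary type if it has at most 27 quaternions, or if for
all `x, y, z` at most 27 quaternions have a slot in `⟨x,y,z⟩`, or `V(x)`, `V(y)`, `V(z)`, `V(xyz)` have
index at most four. -/
theorem result (S : QData) (hS : IsQuat S) (hfin : Finite S.G) :
    ((Quats S Set.univ).ncard ≤ 27 → Elem S) ∧
    ((∀ x y z : S.G, (Quats S (Subgroup.closure {x, y, z} : Subgroup S.G)).ncard ≤ 27 ∨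
      ((V S hS x).index ≤ 4 ∧ (V S hS y).index ≤ 4 ∧ (V S hS z).index ≤ 4 ∧
        (V S hS (x * y * z)).index ≤ 4)) → Elem S) := by
  refine ⟨fun h => main S hS hfin fun x y z => Or.inl (le_trans ?_ h), main S hS hfin⟩
  have hfQ : (Quats S Set.univ).Finite := by
    refine (Set.finite_range (fun p : S.G × S.G => S.q p.1 p.2)).subset ?_
    rintro t ⟨g, -, b, rfl⟩
    exact ⟨(g, b), rfl⟩
  refine Set.ncard_le_ncard ?_ hfQ
  rintro t ⟨g, -, b, rfl⟩
  exact ⟨g, trivial, b, rfl⟩

end Pool.Agent.Results.MP_d26ff6_al.TwentySevenQuaternions
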